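import Mathlib

set_option autoImplicit false

namespace Pool.Agent.Results.MP_cf0832_co.Counter

open Finset Filter Topology Asymptotics MeasureTheory unitInterval

/-- The number of injective homomorphisms from `F` to `G`. -/
noncomputable def emb {α β : Type} (F : SimpleGraph α) (G : SimpleGraph β) : ℕ :=
  Nat.card {f : α → β // Function.Injective f ∧ ∀ a b, F.Adj a b → G.Adj (f a) (f b)}

/-- The normalised density `s_p(F,G)`. -/
noncomputable def sp {α : Type} {n : ℕ} (p : ℝ) (F : SimpleGraph α) (G : SimpleGraph (Fin n)) :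
    ℝ :=
  emb F G / (n.descFactorial (Nat.card α) * p ^ Nat.card F.edgeSet)

/-- The number `p_t(u,v)` of paths of length `t` from `u` to `v`. -/
noncomputable def paths {β : Type} (G : SimpleGraph β) (t : ℕ) (u v : β) : ℕ :=
  Nat.card {x : Fin (t + 1) → β // Function.Injective x ∧ x 0 = u ∧ x (Fin.last t) = v ∧
    ∀ i : Fin t, G.Adj (x i.castSucc) (x i.succ)}

/-- The sum of `p_t(u,v)^k` over ordered pairs of distinct vertices. -/
noncomputable def mom {n : ℕ} (G : SimpleGraph (Fin n)) (t k : ℕ) : ℝ :=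
  ∑ u, ∑ v ∈ univ.erase u, (paths G t u v : ℝ) ^ k

/-- The theta graph `H_{k,ℓ}`: two end vertices and `k` paths with `ℓ - 1` inner vertices. -/
def theta (k ℓ : ℕ) : SimpleGraph (Fin 2 ⊕ Fin k × Fin (ℓ - 1)) :=
  SimpleGraph.fromRel fun a b => match a, b with
    | .inl s, .inr (_, j) => (s = 0 ∧ j.val = 0) ∨ (s = 1 ∧ j.val + 2 = ℓ)
    | .inr (i, j), .inr (i', j') => i = i' ∧ j.val + 1 = j'.val
    | _, _ => False

open Classical in
/-- The step kernel of `G` (vertex `u : Fin n` has number `u + 1`). -/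
noncomputable def kG {n : ℕ} (p : ℝ) (G : SimpleGraph (Fin n)) (x y : I) : ℝ :=
  if ∃ u v : Fin n, G.Adj u v ∧ ⌈(n : ℝ) * x⌉₊ = u + 1 ∧ ⌈(n : ℝ) * y⌉₊ = v + 1 then 1 / p else 0

/-- The cut norm. -/
noncomputable def cutNorm (W : I → I → ℝ) : ENNReal :=
  ⨆ (S : Set I) (T : Set I) (_ : MeasurableSet S) (_ : MeasurableSet T),
    ‖∫ z in S ×ˢ T, W z.1 z.2‖ₑ

/-- The cut distance from `G` to the kernel `κ`. -/
noncomputable def dcut {n : ℕ} (p : ℝ) (G : SimpleGraph (Fin n)) (κ : I → I → ℝ) : ENNReal :=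
  ⨅ (φ : I ≃ I) (_ : MeasurePreserving φ volume volume),
    cutNorm fun x y => kG p G x y - κ (φ x) (φ y)

section
variable (p : ℕ → ℝ) (G : ∀ n, SimpleGraph (Fin n))

def CondA : Prop :=
  ∀ (q : ℕ) (T : SimpleGraph (Fin q)), T.IsTree → BddAbove (Set.range fun n => sp (p n) T (G n))

def CondB (ℓ : ℕ) : Prop :=
  (fun n => mom (G n) (ℓ - 1) 2) =O[atTop] fun n => (n : ℝ) ^ (2 * ℓ - 2) * p n ^ (2 * ℓ - 2)

def CondC (C : ℝ) : Prop :=
  ∃ κ : I → I → ℝ, (∀ x y, κ x y = κ y x) ∧ Measurable (Function.uncurry κ) ∧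
    (∀ x y, 0 ≤ κ x y ∧ κ x y ≤ C) ∧ Tendsto (fun n => dcut (p n) (G n) κ) atTop (𝓝 0)

def CondD (ℓ : ℕ) : Prop :=
  ∀ k, 1 ≤ k → (fun n => mom (G n) ℓ k) =O[atTop]
    fun n => (n : ℝ) ^ (2 + k * (ℓ - 1)) * p n ^ (k * ℓ)

end

def rt (n : ℕ) : ℕ := Nat.nthRoot 11 n

noncomputable def pp (n : ℕ) : ℝ := 1 / (rt n + 1) ^ 7

def Gr (n : ℕ) : SimpleGraph (Fin n) := SimpleGraph.fromRel fun a b =>
  (a.val = 0 ∧ b.val = 1) ∨ ((a.val = 1 ∨ a.val = 2) ∧ 3 ≤ b.val ∧ b.val < rt n ^ 2 + 3)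

lemma rt_le (n : ℕ) : rt n ^ 11 ≤ n := Nat.pow_nthRoot_le_iff.2 (Or.inl (by norm_num))

lemma lt_rt (n : ℕ) : n < (rt n + 1) ^ 11 := Nat.lt_pow_nthRoot_add_one (by norm_num) n

lemma rt_ev (K : ℕ) : ∀ᶠ n in atTop, K ≤ rt n :=
  (eventually_ge_atTop (K ^ 11)).mono fun _ h => (Nat.le_nthRoot_iff (by norm_num)).2 h

lemma pp_pos (n : ℕ) : 0 < pp n := by unfold pp; positivity

lemma pp_le (n : ℕ) : pp n ≤ 1 := by
  unfold pp
  rw [div_le_one (by positivity)]
  exact one_le_pow₀ (by simp)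

lemma adj {n : ℕ} {a b : Fin n} (h : (Gr n).Adj a b) :
    a.val < rt n ^ 2 + 3 ∧ b.val < rt n ^ 2 + 3 ∧
      (a.val = 1 ∨ a.val = 2 ∨ b.val = 1 ∨ b.val = 2) := by
  rw [Gr, SimpleGraph.fromRel_adj] at h
  omega

lemma fcount {α : Type} [Finite α] {n m : ℕ} (P : (α → Fin n) → Prop)
    (h : ∀ f, P f → ∀ a, (f a).val < m) : Nat.card {f // P f} ≤ m ^ Nat.card α := by
  have := Nat.card_le_card_of_injective (α := {f // P f}) (β := α → Fin m)
    (fun f a => ⟨(f.1 a).val, h f.1 f.2 a⟩) (fun f g e => by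
      ext a
      simpa using congrFun e a)
  rwa [Nat.card_fun, Nat.card_eq_fintype_card (α := Fin m), Fintype.card_fin] at this

lemma key {n : ℕ} (h : 1 ≤ rt n) : (rt n ^ 2 + 3) * (rt n + 1) ^ 7 * rt n ^ 2 ≤ 512 * n := by
  have h1 : rt n ^ 2 + 3 ≤ 4 * rt n ^ 2 := by nlinarith
  have h2 : (rt n + 1) ^ 7 ≤ (2 * rt n) ^ 7 := Nat.pow_le_pow_left (by omega) 7
  calc _ ≤ 4 * rt n ^ 2 * (2 * rt n) ^ 7 * rt n ^ 2 := by gcongr
    _ = 512 * rt n ^ 11 := by ring
    _ ≤ _ := by have := rt_le n; omega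

lemma spb {α : Type} [Finite α] (F : SimpleGraph α) (h : ∀ a, ∃ b, F.Adj a b)
    (he : Nat.card F.edgeSet ≤ Nat.card α) :
    ∀ᶠ n in atTop, sp (pp n) F (Gr n) ≤ 1024 ^ Nat.card α := by
  filter_upwards [rt_ev 1, eventually_ge_atTop (2 * Nat.card α + 1)] with n h1 h2
  set q := Nat.card α
  have e1 : emb F (Gr n) ≤ (rt n ^ 2 + 3) ^ q :=
    fcount _ fun f hf a => (h a).elim fun b hb => (adj (hf.2 a b hb)).1
  have e2 : (rt n ^ 2 + 3) * (rt n + 1) ^ 7 ≤ 1024 * (n + 1 - q) := by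
    have := key h1
    have : (rt n ^ 2 + 3) * (rt n + 1) ^ 7 * 1 ≤ (rt n ^ 2 + 3) * (rt n + 1) ^ 7 * rt n ^ 2 := by
      gcongr
      exact Nat.one_le_pow _ _ h1
    omega
  have e3 : emb F (Gr n) * ((rt n + 1) ^ 7) ^ q ≤ 1024 ^ q * n.descFactorial q := by
    calc _ ≤ ((rt n ^ 2 + 3) * (rt n + 1) ^ 7) ^ q := by rw [mul_pow]; gcongr
      _ ≤ (1024 * (n + 1 - q)) ^ q := by gcongr
      _ ≤ _ := by rw [mul_pow]; gcongr; exact Nat.pow_sub_le_descFactorial n q
  have e4 : (0 : ℝ) < n.descFactorial q := by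
    exact_mod_cast Nat.descFactorial_pos.2 (by omega)
  have e5 : pp n ^ q ≤ pp n ^ Nat.card F.edgeSet := pow_le_pow_of_le_one (pp_pos n).le (pp_le n) he
  have e6 := pp_pos n
  rw [sp, div_le_iff₀ (by positivity)]
  calc (emb F (Gr n) : ℝ) ≤ 1024 ^ q * (n.descFactorial q * pp n ^ q) := by
        rw [pp, div_pow, one_pow, mul_one_div, ← mul_div_assoc, le_div_iff₀ (by positivity)]
        exact_mod_cast e3
    _ ≤ _ := by gcongr

lemma condA : CondA pp Gr := by
  intro q T hT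
  refine IsBoundedUnder.bddAbove_range ?_
  have he : Nat.card T.edgeSet + 1 = q := by
    classical
    have := hT.card_edgeFinset
    rw [SimpleGraph.edgeFinset_card] at this
    simpa using this
  by_cases hq : q = 1
  · subst hq
    refine ⟨1, eventually_map.2 ((eventually_ge_atTop 1).mono fun n hn => ?_)⟩
    have e1 : emb T (Gr n) ≤ n ^ Nat.card (Fin 1) := fcount _ fun f _ a => (f a).2
    have e2 : Nat.card T.edgeSet = 0 := by omega
    have e3 : (0 : ℝ) < n := by exact_mod_cast hn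
    simp only [sp, e2]
    simp at e1 ⊢
    rw [div_le_one e3]
    exact_mod_cast e1
  · refine ⟨_, eventually_map.2 (spb T (fun a => ?_) (by simp only [Nat.card_fin]; omega))⟩
    have : Nontrivial (Fin q) := Fin.nontrivial_iff_two_le.2 (by omega)
    exact hT.connected.preconnected.exists_adj_of_nontrivial a

lemma condB : CondB pp Gr 3 := by
  refine IsBigO.of_bound ((4 ^ 8 * 2 ^ 28 : ℕ) : ℝ) ?_
  filter_upwards [rt_ev 1] with n h1
  have hs : ∀ u v : Fin n, ∀ x : Fin 3 → Fin n, (∀ i : Fin 2, (Gr n).Adj (x i.castSucc) (x i.succ)) →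
      ∀ a, (x a).val < rt n ^ 2 + 3 := by
    intro u v x hx a
    fin_cases a
    exacts [(adj (hx 0)).1, (adj (hx 1)).1, (adj (hx 1)).2.1]
  have e1 : ∀ u v : Fin n, paths (Gr n) 2 u v ≤
      if u.val < rt n ^ 2 + 3 ∧ v.val < rt n ^ 2 + 3 then (rt n ^ 2 + 3) ^ 3 else 0 := by
    intro u v
    split_ifs with h
    · exact (fcount _ fun x hx => hs u v x hx.2.2.2).trans (by simp)
    · refine le_of_eq (Nat.card_eq_zero.2 (Or.inl ⟨fun x => h ⟨?_, ?_⟩⟩))
      · rw [← x.2.2.1]; exact hs u v _ x.2.2.2.2 _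
      · rw [← x.2.2.2.1]; exact hs u v _ x.2.2.2.2 _
  set m := rt n ^ 2 + 3 with hm
  have e2 : (univ.filter fun u : Fin n => u.val < m).card ≤ m := by
    simpa using card_le_card_of_injOn (s := univ.filter fun u : Fin n => u.val < m)
      (t := range m) Fin.val (fun a ha => by simpa using ha) Fin.val_injective.injOn
  have e3 : ∑ u : Fin n, ∑ v ∈ univ.erase u, paths (Gr n) 2 u v ^ 2 ≤ m ^ 8 := by
    calc _ ≤ ∑ u : Fin n, ∑ v : Fin n, (if u.val < m then 1 else 0) *
          ((if v.val < m then 1 else 0) * m ^ 6) := by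
          refine sum_le_sum fun u _ => (sum_le_sum_of_subset (subset_univ _)).trans
            (sum_le_sum fun v _ => (Nat.pow_le_pow_left (e1 u v) 2).trans ?_)
          by_cases h1 : u.val < m <;> by_cases h2 : v.val < m <;> simp [h1, h2, ← pow_mul]
      _ = (univ.filter fun u : Fin n => u.val < m).card *
          ((univ.filter fun u : Fin n => u.val < m).card * m ^ 6) := by
          simp only [← mul_sum, ← sum_mul, card_filter]
      _ ≤ m * (m * m ^ 6) := by gcongr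
      _ = _ := by ring
  have e4 : m ^ 8 * ((rt n + 1) ^ 7) ^ 4 ≤ 4 ^ 8 * 2 ^ 28 * n ^ 4 := by
    have h2 : m ≤ 4 * rt n ^ 2 := by nlinarith
    have h3 : rt n + 1 ≤ 2 * rt n := by omega
    calc _ ≤ (4 * rt n ^ 2) ^ 8 * ((2 * rt n) ^ 7) ^ 4 := by gcongr
      _ = 4 ^ 8 * 2 ^ 28 * (rt n ^ 11) ^ 4 := by ring
      _ ≤ _ := by gcongr; exact rt_le n
  have e5 := pp_pos n
  rw [Real.norm_of_nonneg (by unfold mom; positivity), Real.norm_of_nonneg (by positivity)]
  show mom (Gr n) 2 2 ≤ _ * ((n : ℝ) ^ 4 * pp n ^ 4)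
  rw [pp, div_pow, one_pow, mul_one_div, ← mul_div_assoc, le_div_iff₀ (by positivity), mom]
  exact_mod_cast (Nat.mul_le_mul_right _ e3).trans e4

lemma condC (C : ℝ) (hC : 0 ≤ C) : CondC pp Gr C := by
  refine ⟨fun _ _ => 0, fun _ _ => rfl, measurable_const, fun _ _ => ⟨le_rfl, hC⟩, ?_⟩
  have hb : ∀ᶠ n in atTop, dcut (pp n) (Gr n) (fun _ _ => 0) ≤ ENNReal.ofReal (512 / rt n) := by
    filter_upwards [rt_ev 1, eventually_ge_atTop 1] with n h1 h2
    have hn : (0 : ℝ) < n := by exact_mod_cast h2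
    have ht : (1 : ℝ) ≤ rt n := by exact_mod_cast h1
    refine (iInf₂_le (Equiv.refl I) (MeasurePreserving.id volume)).trans
      (iSup_le fun S => iSup_le fun T => iSup_le fun _ => iSup_le fun _ => ?_)
    let c : ℝ := ((rt n ^ 2 + 3 : ℕ) : ℝ) / n
    have hc : 0 ≤ c := by positivity
    let A : Set (I × I) := {x : I | (x : ℝ) ≤ c} ×ˢ Set.univ
    have hA : MeasurableSet A :=
      (measurableSet_le measurable_subtype_coe measurable_const).prod MeasurableSet.univ
    have vA : volume A ≤ ENNReal.ofReal c := by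
      rw [Measure.volume_eq_prod, Measure.prod_prod, measure_univ, mul_one,
        unitInterval.volume_apply]
      refine (measure_mono (t := Set.Icc 0 c) ?_).trans (by simp)
      rintro _ ⟨x, hx, rfl⟩
      exact ⟨x.2.1, hx⟩
    calc _ ≤ ∫⁻ z in S ×ˢ T, ‖kG (pp n) (Gr n) z.1 z.2 - 0‖ₑ := enorm_integral_le_lintegral_enorm _
      _ ≤ ∫⁻ z, A.indicator (fun _ => ENNReal.ofReal (1 / pp n)) z := by
          refine (setLIntegral_le_lintegral _ _).trans (lintegral_mono fun z => ?_)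
          simp only [kG, sub_zero]
          split_ifs with h
          · obtain ⟨u, v, h3, h4, -⟩ := h
            have : z ∈ A := by
              refine ⟨?_, trivial⟩
              show (z.1 : ℝ) ≤ c
              rw [le_div_iff₀ hn, mul_comm]
              refine (Nat.le_ceil _).trans ?_
              rw [h4]
              exact_mod_cast (adj h3).1
            rw [Set.indicator_of_mem this, Real.enorm_eq_ofReal (by have := pp_pos n; positivity)]
          · simp
      _ ≤ ENNReal.ofReal (1 / pp n) * ENNReal.ofReal c := by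
          rw [lintegral_indicator_const hA]
          gcongr
      _ ≤ _ := by
          rw [← ENNReal.ofReal_mul (by have := pp_pos n; positivity)]
          refine ENNReal.ofReal_le_ofReal ?_
          have k1 : (((rt n ^ 2 + 3) * (rt n + 1) ^ 7 * rt n ^ 2 : ℕ) : ℝ) ≤ (512 * n : ℕ) := by
            exact_mod_cast key h1
          simp only [pp, one_div_one_div, c]
          rw [← mul_div_assoc, div_le_div_iff₀ hn (by positivity)]
          push_cast at k1 ⊢
          refine le_trans ?_ k1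
          rw [mul_comm ((rt n : ℝ) ^ 2 + 3)]
          gcongr
          nlinarith
  have hr : Tendsto rt atTop atTop := tendsto_atTop.2 rt_ev
  have h0 : Tendsto (fun n => ENNReal.ofReal (512 / rt n)) atTop (𝓝 0) := by
    simpa using ENNReal.tendsto_ofReal
      ((tendsto_const_div_atTop_nhds_zero_nat (512 : ℝ)).comp hr)
  exact tendsto_of_tendsto_of_tendsto_of_le_of_le' tendsto_const_nhds h0
    (Eventually.of_forall fun _ => bot_le) hb

lemma sp_nonneg {α : Type} (F : SimpleGraph α) (n : ℕ) : 0 ≤ sp (pp n) F (Gr n) := by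
  have := pp_pos n
  unfold sp
  positivity

lemma condH (k : ℕ) (hk : 1 ≤ k) :
    (fun n => sp (pp n) (theta k 3) (Gr n)) =O[atTop] fun _ => (1 : ℝ) := by
  by_cases h : k = 1
  · subst h
    refine IsBigO.of_bound (1024 ^ Nat.card (Fin 2 ⊕ Fin 1 × Fin (3 - 1))) ?_
    have he : Nat.card (theta 1 3).edgeSet ≤ Nat.card (Fin 2 ⊕ Fin 1 × Fin (3 - 1)) := by
      have : (theta 1 3).edgeSet ⊆ ({s(.inl 0, .inr (0, 0)), s(.inr (0, 0), .inr (0, 1)),
          s(.inr (0, 1), .inl 1)} : Finset (Sym2 (Fin 2 ⊕ Fin 1 × Fin 2))) := by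
        rintro ⟨a, b⟩ h
        change (theta 1 3).Adj a b at h
        rw [theta, SimpleGraph.fromRel_adj] at h
        change s(a, b) ∈ _
        rcases a with a | ⟨a, a'⟩ <;> rcases b with b | ⟨b, b'⟩ <;> revert h <;>
          simp only <;> revert a b <;> (try revert a') <;> (try revert b') <;> decide
      rw [Nat.card_coe_set_eq]
      refine (Set.ncard_le_ncard this).trans ?_
      rw [Set.ncard_coe_finset]
      exact card_le_three.trans (by simp)
    refine (spb (theta 1 3) (fun a => ?_) he).mono fun n hn => ?_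
    · rcases a with a | ⟨a, a'⟩
      · exact ⟨.inr (0, a), by fin_cases a <;> simp [theta]⟩
      · exact ⟨.inl a', by fin_cases a' <;> simp [theta]⟩
    · rwa [Real.norm_of_nonneg (sp_nonneg _ _), norm_one, mul_one]
  · have : ∀ n, sp (pp n) (theta k 3) (Gr n) = 0 := by
      intro n
      have : emb (theta k 3) (Gr n) = 0 := by
        refine Nat.card_eq_zero.2 (Or.inl ⟨fun f => ?_⟩)
        obtain ⟨f, hf, h2⟩ := f
        let i : Fin k := ⟨0, by omega⟩
        let j : Fin k := ⟨1, by omega⟩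
        let z : Fin (3 - 1) := ⟨0, by omega⟩
        let o : Fin (3 - 1) := ⟨1, by omega⟩
        have a1 := (adj (h2 (.inl 0) (.inr (i, z)) (by simp [theta, z]))).2.2
        have a2 := (adj (h2 (.inl 1) (.inr (i, o)) (by simp [theta, o]))).2.2
        have a3 := (adj (h2 (.inr (j, z)) (.inr (j, o)) (by simp [theta, z, o]))).2.2
        have hne : ∀ a b, a ≠ b → (f a).val ≠ (f b).val := fun a b h e => h (hf (Fin.ext e))
        have := hne (.inl 0) (.inl 1) (by simp)
        have := hne (.inl 0) (.inr (i, o)) (by simp)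
        have := hne (.inl 0) (.inr (j, z)) (by simp)
        have := hne (.inl 0) (.inr (j, o)) (by simp)
        have := hne (.inr (i, z)) (.inl 1) (by simp)
        have := hne (.inr (i, z)) (.inr (i, o)) (by simp [z, o])
        have := hne (.inr (i, z)) (.inr (j, z)) (by simp [i, j])
        have := hne (.inr (i, z)) (.inr (j, o)) (by simp [i, j])
        have := hne (.inl 1) (.inr (j, z)) (by simp)
        have := hne (.inl 1) (.inr (j, o)) (by simp)
        have := hne (.inr (i, o)) (.inr (j, z)) (by simp [i, j])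
        have := hne (.inr (i, o)) (.inr (j, o)) (by simp [i, j])
        omega
      simp [sp, this]
    simp only [this]
    exact isBigO_zero _ _

lemma low {n : ℕ} (h : rt n ^ 2 + 3 ≤ n) :
    rt n ^ 46 ≤ ∑ u : Fin n, ∑ v ∈ univ.erase u, paths (Gr n) 3 u v ^ 23 := by
  let u : Fin n := ⟨0, by omega⟩
  let x : Fin n := ⟨1, by omega⟩
  let v : Fin n := ⟨2, by omega⟩
  have e1 : rt n ^ 2 ≤ paths (Gr n) 3 u v := by
    let y : Fin (rt n ^ 2) → Fin n := fun i => ⟨i + 3, by omega⟩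
    have := Nat.card_le_card_of_injective (α := Fin (rt n ^ 2))
      (β := {x : Fin 4 → Fin n // Function.Injective x ∧ x 0 = u ∧ x (Fin.last 3) = v ∧
        ∀ i : Fin 3, (Gr n).Adj (x i.castSucc) (x i.succ)})
      (fun i => ⟨![u, x, y i, v], by
        intro a b
        fin_cases a <;> fin_cases b <;> simp [u, x, y, v], rfl, rfl, by
        intro a
        fin_cases a <;> simp [Gr, u, x, y, v]⟩) (fun i j e => by
        have := congrFun (congrArg Subtype.val e) 2
        simpa [y, Fin.ext_iff] using this)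
    rwa [Nat.card_fin] at this
  calc rt n ^ 46 = (rt n ^ 2) ^ 23 := by ring
    _ ≤ paths (Gr n) 3 u v ^ 23 := by gcongr
    _ ≤ ∑ v ∈ univ.erase u, paths (Gr n) 3 u v ^ 23 :=
        single_le_sum (f := fun v => paths (Gr n) 3 u v ^ 23) (fun _ _ => Nat.zero_le _)
          (by simp [u, v])
    _ ≤ _ := single_le_sum (f := fun u => ∑ v ∈ univ.erase u, paths (Gr n) 3 u v ^ 23)
          (fun _ _ => Nat.zero_le _) (mem_univ u)

lemma condD : ¬ CondD pp Gr 3 := by
  intro h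
  obtain ⟨K, hK⟩ := (h 23 (by norm_num)).bound
  obtain ⟨n, hn, h1, h2⟩ := (hK.and ((rt_ev 2).and (rt_ev (⌈K * 2 ^ 45⌉₊ + 1)))).exists
  have e0 : rt n ^ 2 + 3 ≤ n := by
    have h3 : 2 ^ 9 ≤ rt n ^ 9 := Nat.pow_le_pow_left h1 9
    have h4 : rt n ^ 11 = rt n ^ 2 * rt n ^ 9 := by ring
    have := rt_le n
    nlinarith
  have e1 : (rt n : ℝ) ^ 46 ≤ mom (Gr n) 3 23 := by
    rw [mom]
    exact_mod_cast low e0
  have e2 := pp_pos n
  have e3 : K * 2 ^ 45 < rt n := by
    have : ((⌈K * 2 ^ 45⌉₊ + 1 : ℕ) : ℝ) ≤ rt n := by exact_mod_cast h2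
    push_cast at this
    linarith [Nat.le_ceil (K * 2 ^ 45)]
  have ht : (2 : ℝ) ≤ rt n := by exact_mod_cast h1
  have e4 : (n : ℝ) ^ 48 * pp n ^ 69 ≤ 2 ^ 45 * rt n ^ 45 := by
    have h5 : (n : ℝ) ≤ (rt n + 1) ^ 11 := by exact_mod_cast (lt_rt n).le
    calc _ ≤ ((rt n + 1 : ℝ) ^ 11) ^ 48 * pp n ^ 69 := by gcongr
      _ = (rt n + 1) ^ 45 := by
          rw [pp, div_pow, one_pow, mul_one_div, div_eq_iff (by positivity), ← pow_mul, ← pow_mul,
            ← pow_add]
      _ ≤ (2 * rt n) ^ 45 := pow_le_pow_left₀ (by positivity) (by linarith) 45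
      _ = _ := mul_pow _ _ _
  rw [Real.norm_of_nonneg (le_trans (by positivity) e1),
    Real.norm_of_nonneg (mul_pos (pow_pos (by exact_mod_cast (by omega : 0 < n)) _)
      (pow_pos e2 _)).le] at hn
  norm_num only at hn
  have e5 : (0 : ℝ) < rt n ^ 45 := by positivity
  have e6 : (rt n : ℝ) ^ 46 = rt n * rt n ^ 45 := by ring
  rcases le_total K 0 with hK0 | hK0
  · have : K * ((n : ℝ) ^ 48 * pp n ^ 69) ≤ 0 := mul_nonpos_of_nonpos_of_nonneg hK0 (by positivity)
    have : (0 : ℝ) < rt n ^ 46 := by positivity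
    linarith
  · have h6 := mul_le_mul_of_nonneg_left e4 hK0
    have h7 := mul_lt_mul_of_pos_right e3 e5
    rw [← mul_assoc] at h6
    linarith

lemma grow : Tendsto (fun n : ℕ => (n : ℝ) ^ 2 * pp n ^ 3) atTop atTop := by
  have hr : Tendsto (fun n => (rt n : ℝ)) atTop atTop :=
    tendsto_natCast_atTop_atTop.comp (tendsto_atTop.2 rt_ev)
  refine tendsto_atTop_mono' _ ?_ (hr.atTop_div_const (r := 2 ^ 21) (by positivity))
  filter_upwards [rt_ev 1] with n h1
  have ht : (1 : ℝ) ≤ rt n := by exact_mod_cast h1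
  have h5 : (rt n : ℝ) ^ 11 ≤ n := by exact_mod_cast rt_le n
  rw [pp, div_pow, one_pow, mul_one_div, div_le_div_iff₀ (by positivity) (by positivity)]
  calc _ ≤ rt n * ((2 * rt n : ℝ) ^ 7) ^ 3 := by gcongr; linarith
    _ = ((rt n : ℝ) ^ 11) ^ 2 * 2 ^ 21 := by ring
    _ ≤ _ := by gcongr

theorem result : ∃ (p : ℕ → ℝ) (G : ∀ n, SimpleGraph (Fin n)), (∀ n, 0 < p n ∧ p n ≤ 1) ∧
    Tendsto (fun n : ℕ => (n : ℝ) ^ 2 * p n ^ 3) atTop atTop ∧
    CondA p G ∧ CondB p G 3 ∧ (∀ C : ℝ, 0 < C → CondC p G C) ∧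
    (∀ k, 1 ≤ k → (fun n => sp (p n) (theta k 3) (G n)) =O[atTop] fun _ => (1 : ℝ)) ∧
    ¬ CondD p G 3 :=
  ⟨pp, Gr, fun n => ⟨pp_pos n, pp_le n⟩, grow, condA, condB, fun C hC => condC C hC.le, condH,
    condD⟩

end Pool.Agent.Results.MP_cf0832_co.Counter
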